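import Pool.Agent.helper66.AZD2.Zero

/-!
# Adding a zero-dimensional set to an almost zero-dimensional space

If `X = A ∪ C` is a separable metric space with `C` zero-dimensional and `A` almost
zero-dimensional, then disjoint closed sets have zero-dimensional partitions.
-/

set_option autoImplicit false

open Set Filter Topology

namespace Pool.Agent.helper66.AZD2

open Pool.Agent.helper66.AZD

/-- A zero-dimensional set has small relatively clopen neighbourhoods, size measured by `j`. -/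
theorem zd_piece {X Y : Type*} [TopologicalSpace X] [PseudoMetricSpace Y] {j : X → Y}
    (hj : Continuous j) {C : Set X} (hC : ZD C) {ε : ℝ} (hε : 0 < ε) {z : X} (hz : z ∈ C) :
    ∃ P : Set X, z ∈ P ∧ ClOn C P ∧ ∀ x ∈ C, x ∈ P → ∀ y ∈ C, y ∈ P → dist (j x) (j y) < ε := by
  have hN : (Set.ofPred fun y => dist (j z) (j y) < ε / 2) ∈ 𝓝 z := by
    refine (isOpen_lt (continuous_const.dist hj) continuous_const).mem_nhds ?_
    change dist (j z) (j z) < ε / 2
    rw [dist_self]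
    positivity
  obtain ⟨P, hzP, hP, hPN⟩ := hC z hz _ hN
  refine ⟨P, hzP, hP, fun x hx hxP y hy hyP => ?_⟩
  have h1 : dist (j z) (j x) < ε / 2 := hPN x hx hxP
  have h2 : dist (j z) (j y) < ε / 2 := hPN y hy hyP
  have h3 := dist_triangle_left (j x) (j y) (j z)
  linarith

/-- The main step: any two disjoint closed sets of `X = A ∪ C` can be enlarged to disjoint closed
sets whose complement splits into small open pieces. -/
theorem step {X : Type*} [MetricSpace X] [SecondCountableTopology X] {A C : Set X}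
    (hAC : ∀ x, x ∉ C → x ∈ A) (hC : ZD C) (hA : AlmostZeroDim A)
    {E F : Set X} (hE : IsClosed E) (hF : IsClosed F) (hEF : Disjoint E F)
    {ε : ℝ} (hε : 0 < ε) :
    ∃ E' F' : Set X, IsClosed E' ∧ IsClosed F' ∧ E ⊆ E' ∧ F ⊆ F' ∧ Disjoint E' F' ∧
      ∃ π : X → ℕ, (∀ x, x ∉ E' → x ∉ F' → ∀ᶠ y in 𝓝 x, π y = π x) ∧
        ∀ x, x ∉ E' → x ∉ F' → ∀ y, y ∉ E' → y ∉ F' → π x = π y → dist x y < ε := by
  classical
  obtain ⟨f, hf0, hf1, -⟩ := exists_continuous_zero_one_of_isClosed hE hF hEF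
  let j : X → X × ℝ := fun x => (x, f x)
  have hj : Continuous j := continuous_id.prodMk f.continuous
  have hj1 : ∀ x y, dist x y ≤ dist (j x) (j y) := fun x y => by
    rw [Prod.dist_eq]; exact le_max_left _ _
  have hj2 : ∀ x y, |f x - f y| ≤ dist (j x) (j y) := fun x y => by
    rw [Prod.dist_eq, ← Real.dist_eq]; exact le_max_right _ _
  obtain ⟨ε1, hε1, hε1a, hε1b⟩ : ∃ ε1 : ℝ, 0 < ε1 ∧ 12 * ε1 < ε ∧ 12 * ε1 < 1 := by
    refine ⟨min ε 1 / 13, by positivity, ?_, ?_⟩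
    · have := min_le_left ε 1
      have h0 : 0 < min ε 1 := by positivity
      linarith
    · have := min_le_right ε 1
      have h0 : 0 < min ε 1 := by positivity
      linarith
  -- good and bad sets
  obtain ⟨O, D, hO, hOD, hDH, hDs, hOcov⟩ := exists_good hj hA hε1
  obtain ⟨πC, hπC1, hπC2⟩ := exists_partition C (fun x y => dist (j x) (j y) < ε1 / 3)
    (fun z hz => zd_piece hj hC (by positivity) hz)
  obtain ⟨GC, πC', hGCo, hCG, hπC'1, hπC'2⟩ := expand hj hπC1 (by positivity : 0 < ε1 / 3) hπC2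
  let V : ℕ → Set X := fun k => Set.ofPred fun x => x ∈ GC ∧ πC' x = k
  have hVo : ∀ k, IsOpen (V k) := by
    intro k
    rw [isOpen_iff_mem_nhds]
    intro x hx
    filter_upwards [hGCo.mem_nhds hx.1, hπC'1 x hx.1] with y hy1 hy2
    exact ⟨hy1, hy2.trans hx.2⟩
  have hVd : ∀ k l, k ≠ l → Disjoint (V k) (V l) := by
    intro k l hkl
    rw [Set.disjoint_left]
    intro x hx hx'
    exact hkl (hx.2.symm.trans hx'.2)
  have hVs : ∀ k, ∀ x ∈ V k, ∀ y ∈ V k, dist (j x) (j y) < ε1 := by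
    intro k x hx y hy
    have := hπC'2 x hx.1 y hy.1 (hx.2.trans hy.2.symm)
    linarith
  let R : ℕ → Set X := fun n => Set.ofPred fun x => ∃ k < n, x ∈ O k ∨ x ∈ V k
  have hRo : ∀ n, IsOpen (R n) := by
    intro n
    have : R n = ⋃ k : ℕ, ⋃ _ : k < n, (O k ∪ V k) := by
      ext x
      simp [R]
    rw [this]
    exact isOpen_iUnion fun k => isOpen_iUnion fun _ => (hO k).union (hVo k)
  have hRm : Monotone R := by
    intro m n hmn x hx
    obtain ⟨k, hk, hx⟩ := hx
    exact ⟨k, hk.trans_le hmn, hx⟩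
  have hRc : ∀ x, ∃ n, x ∈ R n := by
    intro x
    by_cases hx : x ∈ C
    · exact ⟨πC' x + 1, πC' x, Nat.lt_succ_self _, Or.inr ⟨hCG hx, rfl⟩⟩
    · obtain ⟨k, hk⟩ := hOcov x (hAC x hx)
      exact ⟨k + 1, k, Nat.lt_succ_self _, Or.inl hk⟩
  obtain ⟨g, hg⟩ := exists_exhaust hRo hRm hRc
  -- level sets avoiding `C`
  obtain ⟨πg, hπg1, hπg2⟩ := exists_partition C (fun x y => dist (g x) (g y) < 1 / 18)
    (fun z hz => zd_piece g.continuous hC (by norm_num) hz)
  obtain ⟨G1, π1, hG1o, hCG1, hπ11, hπ12⟩ := expand g.continuous hπg1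
    (by norm_num : (0 : ℝ) < 1 / 18) hπg2
  let rep : ℕ → ℝ := fun n => if hn : ∃ x ∈ G1, π1 x = n then g hn.choose else 0
  have hrep : ∀ x ∈ G1, |rep (π1 x) - g x| < 1 / 6 := by
    intro x hx
    have hex : ∃ y ∈ G1, π1 y = π1 x := ⟨x, hx, rfl⟩
    have h1 : rep (π1 x) = g hex.choose := dif_pos hex
    have h2 := hπ12 hex.choose hex.choose_spec.1 x hx hex.choose_spec.2
    rw [h1, ← Real.dist_eq]
    linarith
  let Q : Set X := Set.ofPred fun x => x ∉ G1 ∧ 1 / 3 ≤ |g x - round (g x)|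
  let φ : X → ℤ := fun x => if x ∈ G1 then round (rep (π1 x)) else round (g x)
  have hφb : ∀ x, g x ≤ φ x + 1 := by
    intro x
    by_cases hx : x ∈ G1
    · have h1 : φ x = round (rep (π1 x)) := if_pos hx
      have h2 := abs_sub_round (rep (π1 x))
      have h3 := hrep x hx
      rw [h1]
      have h4 := (abs_le.1 h2).2
      have h5 := (abs_lt.1 h3).1
      linarith
    · have h1 : φ x = round (g x) := if_neg hx
      have h2 := abs_sub_round (g x)
      rw [h1]
      have h4 := (abs_le.1 h2).2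
      linarith
  have hφ0 : ∀ x, x ∉ G1 → |g x - round (g x)| < 1 / 3 → ∀ᶠ y in 𝓝 x, |g y - round (g x)| < 1 / 3 := by
    intro x _ hx
    have hc : Continuous fun y => |g y - round (g x)| :=
      (g.continuous.sub continuous_const).abs
    exact (isOpen_Iio.preimage hc).mem_nhds hx
  have hrd : ∀ (t : ℝ) (m : ℤ), |t - m| < 1 / 2 → round t = m := by
    intro t m htm
    have h1 := abs_lt.1 htm
    rw [round_eq, Int.floor_eq_iff]
    constructor <;> linarith [h1.1, h1.2]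
  have hφ1 : ∀ x, x ∉ Q → ∀ᶠ y in 𝓝 x, φ y = φ x := by
    intro x hx
    by_cases hxG : x ∈ G1
    · filter_upwards [hG1o.mem_nhds hxG, hπ11 x hxG] with y hy1 hy2
      have h1 : φ y = round (rep (π1 y)) := if_pos hy1
      have h2 : φ x = round (rep (π1 x)) := if_pos hxG
      rw [h1, h2, hy2]
    · have hlt : |g x - round (g x)| < 1 / 3 := by
        by_contra hge
        exact hx ⟨hxG, not_lt.1 hge⟩
      have h2 : φ x = round (g x) := if_neg hxG
      filter_upwards [hφ0 x hxG hlt] with y hy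
      rw [h2]
      by_cases hyG : y ∈ G1
      · have h1 : φ y = round (rep (π1 y)) := if_pos hyG
        rw [h1]
        apply hrd
        have h3 := abs_lt.1 (hrep y hyG)
        have h4 := abs_lt.1 hy
        rw [abs_lt]
        constructor <;> linarith [h3.1, h3.2, h4.1, h4.2]
      · have h1 : φ y = round (g y) := if_neg hyG
        rw [h1]
        apply hrd
        linarith
  have hQc : IsClosed Q := by
    rw [← isOpen_compl_iff, isOpen_iff_mem_nhds]
    intro x hx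
    by_cases hxG : x ∈ G1
    · filter_upwards [hG1o.mem_nhds hxG] with y hy hyQ using hyQ.1 hy
    · have hlt : |g x - round (g x)| < 1 / 3 := by
        by_contra hge
        exact hx ⟨hxG, not_lt.1 hge⟩
      filter_upwards [hφ0 x hxG hlt] with y hy hyQ
      have h1 : round (g y) = round (g x) := hrd _ _ (by linarith)
      have h2 := hyQ.2
      rw [h1] at h2
      linarith
  have hQC : ∀ x ∈ Q, x ∉ C := fun x hx hxC => hx.1 (hCG1 hxC)
  have hψ : ∀ x ∈ Q, ∀ᶠ y in 𝓝[Q] x, ⌊g y⌋ = ⌊g x⌋ := by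
    intro x hx
    have hfar : ∀ z ∈ Q, ∀ m : ℤ, 1 / 3 ≤ |g z - m| := fun z hz m =>
      hz.2.trans (round_le (g z) m)
    have h3 : ∀ᶠ y in 𝓝[Q] x, |g y - g x| < 1 / 3 := by
      have hc : Continuous fun y => |g y - g x| := (g.continuous.sub continuous_const).abs
      refine mem_nhdsWithin_of_mem_nhds ((isOpen_Iio.preimage hc).mem_nhds ?_)
      change |g x - g x| < 1 / 3
      rw [sub_self, abs_zero]
      norm_num
    filter_upwards [h3, self_mem_nhdsWithin] with y hy hyQ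
    have a1 := hfar x hx ⌊g x⌋
    have a2 := hfar x hx (⌊g x⌋ + 1)
    have b1 : (⌊g x⌋ : ℝ) ≤ g x := Int.floor_le _
    have b2 : g x < ⌊g x⌋ + 1 := Int.lt_floor_add_one _
    rw [abs_of_nonneg (by linarith)] at a1
    push_cast at a2
    rw [abs_of_nonpos (by linarith)] at a2
    have h4 := abs_lt.1 hy
    rw [Int.floor_eq_iff]
    constructor <;> linarith [h4.1, h4.2]
  -- decomposition of subsets of `A`
  have hdec : ∀ (Z : Set X) (φ : X → ℤ), Z ⊆ A → (∀ x, g x ≤ φ x + 1) →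
      (∀ x ∈ Z, ∀ᶠ y in 𝓝[Z] x, φ y = φ x) →
      ∃ π : X → ℕ, LC Z π ∧ ∀ x ∈ Z, ∀ y ∈ Z, π x = π y → dist (j x) (j y) < 4 * ε1 := by
    intro Z φ hZA hφb hφZ
    refine exists_partition Z (fun x y => dist (j x) (j y) < 4 * ε1) ?_
    intro z hz
    let S : Set X := Set.ofPred fun x => φ x = φ z
    have hS : ClOn Z S := by
      refine ⟨?_, ?_⟩
      · intro x hx hxS
        filter_upwards [hφZ x hx] with y hy
        exact hy.trans hxS
      · intro x hx hxS
        filter_upwards [hφZ x hx] with y hy hyS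
        exact hxS (hy.symm.trans hyS)
    obtain ⟨n, hn⟩ := exists_nat_ge ((φ z : ℝ) + 1)
    have hcov : ∀ x ∈ Z, x ∈ S → ∃ k < n, x ∈ O k ∨ x ∈ V k := by
      intro x _ hxS
      refine hg x n ?_
      have h2 : φ x = φ z := hxS
      have h1 := hφb x
      rw [h2] at h1
      linarith
    obtain ⟨P, hzP, hP, hPs⟩ := piece j hO hOD hDH hDs hVo hVd hVs hZA hS n hcov hz rfl
    refine ⟨P, hzP, hP, fun x hx hxP y hy hyP => ?_⟩
    have h1 := hPs x hx hxP
    have h2 := hPs y hy hyP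
    have h3 := dist_triangle_left (j x) (j y) (j z)
    linarith
  have hQA : Q ⊆ A := fun x hx => hAC x (hQC x hx)
  obtain ⟨π0, hπ01, hπ02⟩ := hdec (A \ Q) φ sdiff_subset hφb
    (fun x hx => mem_nhdsWithin_of_mem_nhds (hφ1 x hx.2))
  obtain ⟨πQ, hπQ1, hπQ2⟩ := hdec Q (fun x => ⌊g x⌋) hQA
    (fun x => (Int.lt_floor_add_one (g x)).le) hψ
  obtain ⟨G, π', hGo, hZG, hπ'1, hπ'2⟩ := expand hj hπ01 (by positivity : 0 < 4 * ε1) hπ02
  -- split `Q`
  let p : ℕ → Prop := fun n => ∀ y ∈ Q, πQ y = n → y ∉ F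
  let QE : Set X := Set.ofPred fun x => x ∈ Q ∧ p (πQ x)
  let QF : Set X := Set.ofPred fun x => x ∈ Q ∧ ¬ p (πQ x)
  have hQE : IsClosed QE := isClosed_of_LC hQc hπQ1 p
  have hQF : IsClosed QF := isClosed_of_LC hQc hπQ1 (fun n => ¬ p n)
  have hdis : Disjoint (E ∪ QE) (F ∪ QF) := by
    rw [Set.disjoint_left]
    rintro x (hx | hx) (hx' | hx')
    · exact Set.disjoint_left.1 hEF hx hx'
    · obtain ⟨hxQ, hnp⟩ := hx'
      have hnp' : ∃ y ∈ Q, πQ y = πQ x ∧ y ∈ F := by
        by_contra hcon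
        apply hnp
        intro y hy hyx hyF
        exact hcon ⟨y, hy, hyx, hyF⟩
      obtain ⟨y, hyQ, hyx, hyF⟩ := hnp'
      have h1 := hπQ2 y hyQ x hxQ hyx
      have h2 := hj2 y x
      rw [hf0 hx, hf1 hyF] at h2
      simp only [Pi.one_apply, Pi.zero_apply, sub_zero, abs_one] at h2
      linarith
    · exact hx.2 x hx.1 rfl hx'
    · exact hx'.2 hx.2
  obtain ⟨U, V', hU, hV', hUV, hEU, hFV, hCUV⟩ := hC.avoid _ _ (hE.union hQE) (hF.union hQF) hdis
  have hT : ∀ x, x ∉ G → x ∈ U ∪ V' := by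
    intro x hxG
    by_cases hxC : x ∈ C
    · exact hCUV hxC
    · have hxA := hAC x hxC
      have hxQ : x ∈ Q := by
        by_contra hxQ
        exact hxG (hZG ⟨hxA, hxQ⟩)
      by_cases hp : p (πQ x)
      · exact Or.inl (hEU (Or.inr ⟨hxQ, hp⟩))
      · exact Or.inr (hFV (Or.inr ⟨hxQ, hp⟩))
  have hcompl : ∀ x, x ∉ E ∪ (Gᶜ ∩ V'ᶜ) → x ∉ F ∪ (Gᶜ ∩ Uᶜ) → x ∈ G := by
    intro x hx1 hx2
    by_contra hxG
    by_cases hxU : x ∈ U
    · exact hx1 (Or.inr ⟨hxG, fun h => Set.disjoint_left.1 hUV hxU h⟩)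
    · exact hx2 (Or.inr ⟨hxG, hxU⟩)
  refine ⟨E ∪ (Gᶜ ∩ V'ᶜ), F ∪ (Gᶜ ∩ Uᶜ),
    hE.union (hGo.isClosed_compl.inter hV'.isClosed_compl),
    hF.union (hGo.isClosed_compl.inter hU.isClosed_compl),
    subset_union_left, subset_union_left, ?_, π', ?_, ?_⟩
  · rw [Set.disjoint_left]
    rintro x (hx | hx) (hx' | hx')
    · exact Set.disjoint_left.1 hEF hx hx'
    · exact hx'.2 (hEU (Or.inl hx))
    · exact hx.2 (hFV (Or.inl hx'))
    · rcases hT x hx.1 with h | h
      · exact hx'.2 h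
      · exact hx.2 h
  · intro x hx1 hx2
    exact hπ'1 x (hcompl x hx1 hx2)
  · intro x hx1 hx2 y hy1 hy2 hxy
    have h1 := hπ'2 x (hcompl x hx1 hx2) y (hcompl y hy1 hy2) hxy
    have h2 := hj1 x y
    linarith

/-- **Main theorem.** If `X = A ∪ C` is a separable metric space, `C` is zero-dimensional and `A` is
almost zero-dimensional, then any two disjoint closed sets have a zero-dimensional partition. -/
theorem exists_partition_zd {X : Type*} [MetricSpace X] [SecondCountableTopology X] {A C : Set X}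
    (hAC : ∀ x, x ∉ C → x ∈ A) (hC : ZD C) (hA : AlmostZeroDim A)
    (E F : Set X) (hE : IsClosed E) (hF : IsClosed F) (hEF : Disjoint E F) :
    ∃ U : Set X, IsOpen U ∧ E ⊆ U ∧ Disjoint (closure U) F ∧ ZD (frontier U) := by
  classical
  -- states: pairs of disjoint closed sets
  let St : Type _ := {p : Set X × Set X // IsClosed p.1 ∧ IsClosed p.2 ∧ Disjoint p.1 p.2}
  have hnext : ∀ (st : St) (m : ℕ), ∃ st' : St, st.1.1 ⊆ interior st'.1.1 ∧
      st.1.2 ⊆ interior st'.1.2 ∧ ∃ π : X → ℕ,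
        (∀ x, x ∉ st'.1.1 → x ∉ st'.1.2 → ∀ᶠ y in 𝓝 x, π y = π x) ∧
        ∀ x, x ∉ st'.1.1 → x ∉ st'.1.2 → ∀ y, y ∉ st'.1.1 → y ∉ st'.1.2 → π x = π y →
          dist x y < 1 / ((m : ℝ) + 1) := by
    rintro ⟨⟨E, F⟩, hE, hF, hEF⟩ m
    obtain ⟨E1, F1, hE1, hF1, hEE1, hFF1, hd1⟩ := fatten hE hF hEF
    obtain ⟨E', F', hE', hF', hEE', hFF', hd, π, hπ1, hπ2⟩ := step hAC hC hA hE1 hF1 hd1
      (by positivity : (0 : ℝ) < 1 / ((m : ℝ) + 1))
    exact ⟨⟨(E', F'), hE', hF', hd⟩, hEE1.trans (interior_mono hEE'),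
      hFF1.trans (interior_mono hFF'), π, hπ1, hπ2⟩
  choose next hn1 hn2 hn3 using hnext
  let st0 : St := ⟨(E, F), hE, hF, hEF⟩
  let s : ℕ → St := fun n => Nat.rec st0 (fun m st => next st m) n
  have hs : ∀ m, s (m + 1) = next (s m) m := fun m => rfl
  have hE1 : ∀ m, (s m).1.1 ⊆ interior (s (m + 1)).1.1 := fun m => by
    rw [hs]; exact hn1 _ _
  have hF1 : ∀ m, (s m).1.2 ⊆ interior (s (m + 1)).1.2 := fun m => by
    rw [hs]; exact hn2 _ _
  have hEm : Monotone fun m => (s m).1.1 :=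
    monotone_nat_of_le_succ fun m => (hE1 m).trans interior_subset
  have hFm : Monotone fun m => (s m).1.2 :=
    monotone_nat_of_le_succ fun m => (hF1 m).trans interior_subset
  let U : Set X := ⋃ m, interior (s m).1.1
  let U' : Set X := ⋃ m, interior (s m).1.2
  have hEU : ∀ m, (s m).1.1 ⊆ U := fun m => (hE1 m).trans (subset_iUnion_of_subset (m + 1) Subset.rfl)
  have hFU : ∀ m, (s m).1.2 ⊆ U' := fun m => (hF1 m).trans (subset_iUnion_of_subset (m + 1) Subset.rfl)
  have hUo : IsOpen U := isOpen_iUnion fun m => isOpen_interior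
  have hU'o : IsOpen U' := isOpen_iUnion fun m => isOpen_interior
  have hUU' : Disjoint U U' := by
    rw [Set.disjoint_left]
    intro y hy hy'
    obtain ⟨m, hm⟩ := mem_iUnion.1 hy
    obtain ⟨n, hn⟩ := mem_iUnion.1 hy'
    have h1 : y ∈ (s (max m n)).1.1 := hEm (le_max_left m n) (interior_subset hm)
    have h2 : y ∈ (s (max m n)).1.2 := hFm (le_max_right m n) (interior_subset hn)
    exact Set.disjoint_left.1 (s (max m n)).2.2.2 h1 h2
  have hfr : ∀ y ∈ frontier U, ∀ m, y ∉ (s m).1.1 ∧ y ∉ (s m).1.2 := by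
    intro y hy m
    rw [hUo.frontier_eq] at hy
    refine ⟨fun h => hy.2 (hEU m h), fun h => ?_⟩
    obtain ⟨z, hz1, hz2⟩ := mem_closure_iff.1 hy.1 U' hU'o (hFU m h)
    exact Set.disjoint_left.1 hUU' hz2 hz1
  refine ⟨U, hUo, hEU 0, ?_, ?_⟩
  · rw [Set.disjoint_left]
    intro y hy hyF
    obtain ⟨z, hz1, hz2⟩ := mem_closure_iff.1 hy U' hU'o (hFU 0 hyF)
    exact Set.disjoint_left.1 hUU' hz2 hz1
  · intro z hz N hN
    obtain ⟨δ, hδ, hδN⟩ := Metric.mem_nhds_iff.1 hN
    obtain ⟨m, hm⟩ := exists_nat_one_div_lt hδ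
    obtain ⟨π, hπ1, hπ2⟩ := hn3 (s m) m
    have hlc : ∀ y ∈ frontier U, ∀ᶠ w in 𝓝 y, π w = π y := by
      intro y hy
      have := hfr y hy (m + 1)
      rw [hs] at this
      exact hπ1 y this.1 this.2
    refine ⟨Set.ofPred fun y => π y = π z, rfl, ⟨?_, ?_⟩, ?_⟩
    · intro x hx hxz
      refine mem_nhdsWithin_of_mem_nhds ?_
      filter_upwards [hlc x hx] with w hw
      exact hw.trans hxz
    · intro x hx hxz
      refine mem_nhdsWithin_of_mem_nhds ?_
      filter_upwards [hlc x hx] with w hw hwz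
      exact hxz (hw.symm.trans hwz)
    · intro x hx hxz
      apply hδN
      have h1 := hfr x hx (m + 1)
      have h2 := hfr z hz (m + 1)
      rw [hs] at h1 h2
      exact lt_trans (hπ2 x h1.1 h1.2 z h2.1 h2.2 hxz) hm

end Pool.Agent.helper66.AZD2
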