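import Pool.Agent.helper66.AZD.Main

/-!
# Zero-dimensional subsets of separable metric spaces

Partitions avoiding a zero-dimensional set, the countable sum theorem in dimension zero, the
decomposition theorem for spaces with zero-dimensional partitions, and covers of order two.
-/

set_option autoImplicit false

open Set Filter Topology

namespace Pool.Agent.helper66.AZD2

open Pool.Agent.helper66.AZD

/-- The subset `Z` is zero-dimensional: its points have small relatively clopen neighbourhoods. -/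
def ZD {X : Type*} [TopologicalSpace X] (Z : Set X) : Prop :=
  ∀ z ∈ Z, ∀ N ∈ 𝓝 z, ∃ P : Set X, z ∈ P ∧ ClOn Z P ∧ ∀ x ∈ Z, x ∈ P → x ∈ N

theorem exists_partition_target {X : Type*} [TopologicalSpace X] [SecondCountableTopology X]
    {Z : Set X} (hne : Z.Nonempty) {κ : Type*} (N : κ → Set X)
    (h : ∀ z ∈ Z, ∃ P : Set X, z ∈ P ∧ ClOn Z P ∧ ∃ i, ∀ x ∈ Z, x ∈ P → x ∈ N i) :
    ∃ (π : X → ℕ) (q : ℕ → κ), LC Z π ∧ ∀ x ∈ Z, x ∈ N (q (π x)) := by
  classical
  have : Nonempty κ := by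
    obtain ⟨z, hz⟩ := hne
    obtain ⟨_, _, _, i, _⟩ := h z hz
    exact ⟨i⟩
  choose! P hzP hcl i hi using h
  obtain ⟨t, htZ, htc, hcov⟩ := TopologicalSpace.countable_cover_nhdsWithin
    (f := P) (s := Z) (fun x hx => (hcl x hx).1 x hx (hzP x hx))
  have htne : t.Nonempty := by
    obtain ⟨x, hx⟩ := hne
    obtain ⟨y, hy, -⟩ := mem_iUnion₂.1 (hcov hx)
    exact ⟨y, hy⟩
  obtain ⟨q, rfl⟩ := htc.exists_eq_range htne
  have hq : ∀ i, q i ∈ Z := fun i => htZ (mem_range_self i)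
  have hex : ∀ x ∈ Z, (Set.ofPred fun i => x ∈ P (q i)).Nonempty := by
    intro x hx
    obtain ⟨y, ⟨i, rfl⟩, hy⟩ := mem_iUnion₂.1 (hcov hx)
    exact ⟨i, hy⟩
  let π : X → ℕ := fun x => sInf (Set.ofPred fun i => x ∈ P (q i))
  have hmem : ∀ x ∈ Z, x ∈ P (q (π x)) := fun x hx => Nat.sInf_mem (hex x hx)
  refine ⟨π, fun n => i (q n), ?_, fun x hx => hi _ (hq _) x hx (hmem x hx)⟩
  intro x hx
  have h1 : ∀ᶠ y in 𝓝[Z] x, y ∈ P (q (π x)) := (hcl _ (hq _)).1 x hx (hmem x hx)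
  have h2 : ∀ᶠ y in 𝓝[Z] x, ∀ i ∈ Finset.range (π x), y ∉ P (q i) := by
    rw [Filter.eventually_all_finset]
    intro i hi
    have hi' : i < π x := Finset.mem_range.1 hi
    exact (hcl _ (hq i)).2 x hx (fun hxi => Nat.notMem_of_lt_sInf hi' hxi)
  filter_upwards [h1, h2, self_mem_nhdsWithin] with y hy1 hy2 hyZ
  refine le_antisymm (Nat.sInf_le hy1) ?_
  by_contra hlt
  exact hy2 (π y) (Finset.mem_range.2 (not_le.1 hlt)) (hmem y hyZ)

/-- Relatively clopen pieces of `Z` expand to pairwise disjoint open sets inside given open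
sets. -/
theorem expand_disj {X : Type*} [PseudoMetricSpace X] {Z : Set X} {π : X → ℕ} (hπ : LC Z π)
    (N : ℕ → Set X) (hN : ∀ n, IsOpen (N n)) (hZN : ∀ x ∈ Z, x ∈ N (π x)) :
    ∃ W : ℕ → Set X, (∀ n, IsOpen (W n)) ∧ (∀ n m, n ≠ m → Disjoint (W n) (W m)) ∧
      (∀ n, W n ⊆ N n) ∧ ∀ x ∈ Z, x ∈ W (π x) := by
  classical
  have hr : ∀ p ∈ Z, ∃ r : ℝ, 0 < r ∧ (∀ y ∈ Z, dist y p < 2 * r → π y = π p) ∧
      ∀ y, dist y p < r → y ∈ N (π p) := by
    intro p hp
    obtain ⟨δ, hδ, h1⟩ := Metric.mem_nhdsWithin_iff.1 (hπ p hp)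
    obtain ⟨δ', hδ', h2⟩ := Metric.isOpen_iff.1 (hN (π p)) p (hZN p hp)
    refine ⟨min (δ / 2) δ', by positivity, ?_, ?_⟩
    · intro y hy hyp
      have : dist y p < δ := by
        have := min_le_left (δ / 2) δ'
        linarith
      exact h1 ⟨this, hy⟩
    · intro y hyp
      exact h2 (lt_of_lt_of_le hyp (min_le_right _ _))
  choose! r hr0 hr1 hr2 using hr
  have key : ∀ x p q, p ∈ Z → q ∈ Z → dist x p < r p → dist x q < r q → r q ≤ r p →
      π q = π p := by
    intro x p q hp hq hxp hxq hle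
    refine hr1 p hp q hq ?_
    have := dist_triangle_left q p x
    linarith
  have key2 : ∀ x p q, p ∈ Z → q ∈ Z → dist x p < r p → dist x q < r q → π q = π p := by
    intro x p q hp hq hxp hxq
    rcases le_total (r q) (r p) with h | h
    · exact key x p q hp hq hxp hxq h
    · exact (key x q p hq hp hxq hxp h).symm
  refine ⟨fun n => Set.ofPred fun x => ∃ p ∈ Z, π p = n ∧ dist x p < r p, ?_, ?_, ?_, ?_⟩
  · intro n
    rw [isOpen_iff_mem_nhds]
    rintro x ⟨p, hp, hpn, hxp⟩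
    filter_upwards [Metric.isOpen_ball.mem_nhds (show x ∈ Metric.ball p (r p) from hxp)] with y hy
    exact ⟨p, hp, hpn, hy⟩
  · intro n m hnm
    rw [Set.disjoint_left]
    rintro x ⟨p, hp, hpn, hxp⟩ ⟨q, hq, hqm, hxq⟩
    exact hnm (hpn.symm.trans ((key2 x p q hp hq hxp hxq).symm.trans hqm))
  · rintro n x ⟨p, hp, rfl, hxp⟩
    exact hr2 p hp x hxp
  · intro x hx
    exact ⟨x, hx, rfl, by simpa using hr0 x hx⟩

/-- An open cover of a zero-dimensional set shrinks to a cover by pairwise disjoint open sets. -/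
theorem ZD.refine {X : Type*} [MetricSpace X] [SecondCountableTopology X] {Z : Set X} (hZ : ZD Z)
    {κ : Type*} (O : κ → Set X) (hO : ∀ i, IsOpen (O i)) (hcov : ∀ z ∈ Z, ∃ i, z ∈ O i) :
    ∃ W : κ → Set X, (∀ i, IsOpen (W i)) ∧ (∀ i j, i ≠ j → Disjoint (W i) (W j)) ∧
      (∀ i, W i ⊆ O i) ∧ ∀ z ∈ Z, ∃ i, z ∈ W i := by
  classical
  rcases Z.eq_empty_or_nonempty with rfl | hne
  · exact ⟨fun _ => ∅, fun _ => isOpen_empty, fun _ _ _ => disjoint_empty _,
      fun _ => empty_subset _, fun z hz => absurd hz (notMem_empty z)⟩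
  obtain ⟨π, q, hπ, hq⟩ := exists_partition_target hne O (fun z hz => by
    obtain ⟨i, hi⟩ := hcov z hz
    obtain ⟨P, hzP, hP, hPN⟩ := hZ z hz _ ((hO i).mem_nhds hi)
    exact ⟨P, hzP, hP, i, hPN⟩)
  obtain ⟨W, hWo, hWd, hWN, hW⟩ := expand_disj hπ (fun n => O (q n)) (fun n => hO _) hq
  refine ⟨fun i => Set.ofPred fun x => ∃ n, q n = i ∧ x ∈ W n, ?_, ?_, ?_, ?_⟩
  · intro i
    rw [isOpen_iff_mem_nhds]
    rintro x ⟨n, hn, hx⟩
    filter_upwards [(hWo n).mem_nhds hx] with y hy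
    exact ⟨n, hn, hy⟩
  · intro i j hij
    rw [Set.disjoint_left]
    rintro x ⟨n, hn, hx⟩ ⟨m, hm, hx'⟩
    have hnm : n ≠ m := by
      rintro rfl
      exact hij (hn.symm.trans hm)
    exact Set.disjoint_left.1 (hWd n m hnm) hx hx'
  · rintro i x ⟨n, rfl, hx⟩
    exact hWN n hx
  · intro z hz
    exact ⟨q (π z), π z, rfl, hW z hz⟩

/-- Disjoint closed sets have disjoint closed neighbourhoods. -/
theorem fatten {X : Type*} [TopologicalSpace X] [NormalSpace X] {E F : Set X} (hE : IsClosed E)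
    (hF : IsClosed F) (hEF : Disjoint E F) :
    ∃ E1 F1 : Set X, IsClosed E1 ∧ IsClosed F1 ∧ E ⊆ interior E1 ∧ F ⊆ interior F1 ∧
      Disjoint E1 F1 := by
  obtain ⟨f, hf0, hf1, -⟩ := exists_continuous_zero_one_of_isClosed hE hF hEF
  refine ⟨f ⁻¹' Iic (1 / 3), f ⁻¹' Ici (2 / 3), isClosed_Iic.preimage f.continuous,
    isClosed_Ici.preimage f.continuous, ?_, ?_, ?_⟩
  · intro y hy
    refine mem_interior.2 ⟨f ⁻¹' Iio (1 / 3), preimage_mono Iio_subset_Iic_self,
      isOpen_Iio.preimage f.continuous, ?_⟩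
    have := hf0 hy
    change f y < 1 / 3
    rw [this]
    norm_num
  · intro y hy
    refine mem_interior.2 ⟨f ⁻¹' Ioi (2 / 3), preimage_mono Ioi_subset_Ici_self,
      isOpen_Ioi.preimage f.continuous, ?_⟩
    have := hf1 hy
    change 2 / 3 < f y
    rw [this]
    norm_num
  · rw [Set.disjoint_left]
    intro y hy1 hy2
    have h1 : f y ≤ 1 / 3 := hy1
    have h2 : 2 / 3 ≤ f y := hy2
    linarith

/-- Partitions which avoid `Z`. -/
def Avoid {X : Type*} [TopologicalSpace X] (Z : Set X) : Prop :=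
  ∀ E F : Set X, IsClosed E → IsClosed F → Disjoint E F →
    ∃ U V : Set X, IsOpen U ∧ IsOpen V ∧ Disjoint U V ∧ E ⊆ U ∧ F ⊆ V ∧ Z ⊆ U ∪ V

theorem ZD.avoid {X : Type*} [MetricSpace X] [SecondCountableTopology X] {Z : Set X}
    (hZ : ZD Z) : Avoid Z := by
  intro E F hE hF hEF
  obtain ⟨E1, F1, hE1, hF1, hEE1, hFF1, hd1⟩ := fatten hE hF hEF
  obtain ⟨W, hWo, hWd, hWO, hW⟩ := hZ.refine (fun b : Bool => cond b F1ᶜ E1ᶜ)
    (fun b => by cases b; exacts [hE1.isOpen_compl, hF1.isOpen_compl])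
    (fun z _ => by
      by_cases hz : z ∈ F1
      · exact ⟨false, fun h => Set.disjoint_left.1 hd1 h hz⟩
      · exact ⟨true, hz⟩)
  have h0 : W true ⊆ F1ᶜ := hWO true
  have h1 : W false ⊆ E1ᶜ := hWO false
  refine ⟨interior E1 ∪ W true, interior F1 ∪ W false, isOpen_interior.union (hWo _),
    isOpen_interior.union (hWo _), ?_, fun x hx => Or.inl (hEE1 hx), fun x hx => Or.inl (hFF1 hx),
    ?_⟩
  · rw [Set.disjoint_left]
    rintro x (hx | hx) (hx' | hx')
    · exact Set.disjoint_left.1 hd1 (interior_subset hx) (interior_subset hx')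
    · exact h1 hx' (interior_subset hx)
    · exact h0 hx (interior_subset hx')
    · exact Set.disjoint_left.1 (hWd true false (by decide)) hx hx'
  · intro z hz
    obtain ⟨b, hb⟩ := hW z hz
    cases b
    · exact Or.inr (Or.inr hb)
    · exact Or.inl (Or.inr hb)

theorem Avoid.zd {X : Type*} [TopologicalSpace X] [T1Space X] {Z : Set X} (hZ : Avoid Z) :
    ZD Z := by
  intro z hz N hN
  obtain ⟨U, V, hU, hV, hUV, hzU, hNV, hZUV⟩ := hZ {z} (interior N)ᶜ isClosed_singleton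
    isOpen_interior.isClosed_compl (by
      rw [Set.disjoint_left]
      rintro x rfl hx
      exact hx (mem_interior_iff_mem_nhds.2 hN))
  refine ⟨U, hzU rfl, ⟨?_, ?_⟩, ?_⟩
  · intro x _ hx
    exact mem_nhdsWithin_of_mem_nhds (hU.mem_nhds hx)
  · intro x hx hxU
    have hxV : x ∈ V := (hZUV hx).resolve_left hxU
    exact mem_nhdsWithin_of_mem_nhds
      (mem_of_superset (hV.mem_nhds hxV) fun y hy hy' => Set.disjoint_left.1 hUV hy' hy)
  · intro x _ hxU
    by_contra hxN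
    have : x ∈ (interior N)ᶜ := fun h => hxN (interior_subset h)
    exact Set.disjoint_left.1 hUV hxU (hNV this)

/-- The countable sum theorem in dimension zero. -/
theorem avoid_iUnion {X : Type*} [TopologicalSpace X] [NormalSpace X] {Z : ℕ → Set X}
    (hc : ∀ n, IsClosed (Z n)) (hZ : ∀ n, Avoid (Z n)) : Avoid (⋃ n, Z n) := by
  classical
  intro E F hE hF hEF
  let St : Type _ := {p : Set X × Set X // IsClosed p.1 ∧ IsClosed p.2 ∧ Disjoint p.1 p.2}
  have hnext : ∀ (st : St) (m : ℕ), ∃ st' : St, st.1.1 ⊆ interior st'.1.1 ∧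
      st.1.2 ⊆ interior st'.1.2 ∧ Z m ⊆ st'.1.1 ∪ st'.1.2 := by
    rintro ⟨⟨E, F⟩, hE, hF, hEF⟩ m
    obtain ⟨U, V, hU, hV, hUV, hEU, hFV, hZUV⟩ := hZ m E F hE hF hEF
    have hd : Disjoint (E ∪ (Z m ∩ Vᶜ)) (F ∪ (Z m ∩ Uᶜ)) := by
      rw [Set.disjoint_left]
      rintro x (hx | hx) (hx' | hx')
      · exact Set.disjoint_left.1 hEF hx hx'
      · exact hx'.2 (hEU hx)
      · exact hx.2 (hFV hx')
      · rcases hZUV hx.1 with h | h
        · exact hx'.2 h
        · exact hx.2 h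
    obtain ⟨E1, F1, hE1, hF1, hEE1, hFF1, hd1⟩ := fatten
      (hE.union ((hc m).inter hV.isClosed_compl)) (hF.union ((hc m).inter hU.isClosed_compl)) hd
    refine ⟨⟨(E1, F1), hE1, hF1, hd1⟩, subset_union_left.trans hEE1, subset_union_left.trans hFF1,
      ?_⟩
    intro x hx
    by_cases hxV : x ∈ V
    · have hxU : x ∉ U := fun h => Set.disjoint_left.1 hUV h hxV
      exact Or.inr (interior_subset (hFF1 (Or.inr ⟨hx, hxU⟩)))
    · exact Or.inl (interior_subset (hEE1 (Or.inr ⟨hx, hxV⟩)))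
  choose next hn1 hn2 hn3 using hnext
  let st0 : St := ⟨(E, F), hE, hF, hEF⟩
  let s : ℕ → St := fun n => Nat.rec st0 (fun m st => next st m) n
  have hs : ∀ m, s (m + 1) = next (s m) m := fun m => rfl
  have hE1 : ∀ m, (s m).1.1 ⊆ interior (s (m + 1)).1.1 := fun m => by
    rw [hs]; exact hn1 _ _
  have hF1 : ∀ m, (s m).1.2 ⊆ interior (s (m + 1)).1.2 := fun m => by
    rw [hs]; exact hn2 _ _
  have hEm : Monotone fun m => (s m).1.1 :=
    monotone_nat_of_le_succ fun m => (hE1 m).trans interior_subset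
  have hFm : Monotone fun m => (s m).1.2 :=
    monotone_nat_of_le_succ fun m => (hF1 m).trans interior_subset
  refine ⟨⋃ m, interior (s m).1.1, ⋃ m, interior (s m).1.2, isOpen_iUnion fun m => isOpen_interior,
    isOpen_iUnion fun m => isOpen_interior, ?_, ?_, ?_, ?_⟩
  · rw [Set.disjoint_left]
    intro y hy hy'
    obtain ⟨m, hm⟩ := mem_iUnion.1 hy
    obtain ⟨n, hn⟩ := mem_iUnion.1 hy'
    have h1 : y ∈ (s (max m n)).1.1 := hEm (le_max_left m n) (interior_subset hm)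
    have h2 : y ∈ (s (max m n)).1.2 := hFm (le_max_right m n) (interior_subset hn)
    exact Set.disjoint_left.1 (s (max m n)).2.2.2 h1 h2
  · exact (hE1 0).trans (subset_iUnion_of_subset 1 Subset.rfl)
  · exact (hF1 0).trans (subset_iUnion_of_subset 1 Subset.rfl)
  · intro x hx
    obtain ⟨m, hm⟩ := mem_iUnion.1 hx
    have h3 : x ∈ (s (m + 1)).1.1 ∪ (s (m + 1)).1.2 := by
      rw [hs]; exact hn3 _ _ hm
    rcases h3 with h | h
    · exact Or.inl (mem_iUnion.2 ⟨m + 2, hE1 (m + 1) h⟩)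
    · exact Or.inr (mem_iUnion.2 ⟨m + 2, hF1 (m + 1) h⟩)

theorem zd_empty {X : Type*} [TopologicalSpace X] : ZD (∅ : Set X) :=
  fun z hz => absurd hz (notMem_empty z)

/-- The decomposition theorem: zero-dimensional partitions give two zero-dimensional pieces. -/
theorem decomposition {X : Type*} [MetricSpace X] [SecondCountableTopology X]
    (H : ∀ E F : Set X, IsClosed E → IsClosed F → Disjoint E F →
      ∃ U : Set X, IsOpen U ∧ E ⊆ U ∧ Disjoint (closure U) F ∧ ZD (frontier U)) :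
    ∃ Z0 Z1 : Set X, ZD Z0 ∧ ZD Z1 ∧ Z0 ∪ Z1 = univ := by
  classical
  obtain ⟨b, hb⟩ := ((TopologicalSpace.countable_countableBasis X).insert ∅).exists_eq_range
    ⟨∅, Or.inl rfl⟩
  have hbase : ∀ (x : X) (N : Set X), N ∈ 𝓝 x → ∃ n, x ∈ b n ∧ b n ⊆ N ∧ IsOpen (b n) := by
    intro x N hN
    obtain ⟨B, hB, hxB, hBN⟩ := (TopologicalSpace.isBasis_countableBasis X).mem_nhds_iff.1 hN
    have : B ∈ insert ∅ (TopologicalSpace.countableBasis X) := Or.inr hB
    rw [hb] at this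
    obtain ⟨n, rfl⟩ := this
    exact ⟨n, hxB, hBN, TopologicalSpace.isOpen_of_mem_countableBasis hB⟩
  have hex : ∀ n m : ℕ, ∃ U : Set X, IsOpen U ∧ ZD (frontier U) ∧
      (closure (b n) ⊆ b m → IsOpen (b m) → closure (b n) ⊆ U ∧ U ⊆ b m) := by
    intro n m
    by_cases hnm : closure (b n) ⊆ b m ∧ IsOpen (b m)
    · obtain ⟨U, hU, hEU, hUF, hfr⟩ := H (closure (b n)) (b m)ᶜ isClosed_closure
        hnm.2.isClosed_compl (Set.disjoint_left.2 fun x hx hx' => hx' (hnm.1 hx))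
      refine ⟨U, hU, hfr, fun _ _ => ⟨hEU, fun x hx => ?_⟩⟩
      by_contra hxm
      exact Set.disjoint_left.1 hUF (subset_closure hx) hxm
    · refine ⟨∅, isOpen_empty, by rw [frontier_empty]; exact zd_empty, fun h1 h2 => ?_⟩
      exact absurd ⟨h1, h2⟩ hnm
  choose U hU hfr hUb using hex
  let F : ℕ → Set X := fun k => frontier (U k.unpair.1 k.unpair.2)
  have hF : Avoid (⋃ k, F k) := avoid_iUnion (fun k => isClosed_frontier) (fun k => (hfr _ _).avoid)
  refine ⟨(⋃ k, F k)ᶜ, ⋃ k, F k, ?_, hF.zd, compl_union_self _⟩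
  intro z hz N hN
  obtain ⟨m, hzm, hmN, hmo⟩ := hbase z N hN
  obtain ⟨K, hK, hKc, hKm⟩ := exists_mem_nhds_isClosed_subset (hmo.mem_nhds hzm)
  obtain ⟨n, hzn, hnK, -⟩ := hbase z K hK
  have hcl : closure (b n) ⊆ b m := (closure_minimal hnK hKc).trans hKm
  obtain ⟨h1, h2⟩ := hUb n m hcl hmo
  refine ⟨U n m, h1 (subset_closure hzn), ⟨?_, ?_⟩, fun x _ hx => hmN (h2 hx)⟩
  · intro x _ hx
    exact mem_nhdsWithin_of_mem_nhds ((hU n m).mem_nhds hx)
  · intro x hx hxU
    have hxf : x ∉ frontier (U n m) := by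
      intro h
      apply hx
      refine mem_iUnion.2 ⟨Nat.pair n m, ?_⟩
      change x ∈ frontier (U (Nat.unpair (Nat.pair n m)).1 (Nat.unpair (Nat.pair n m)).2)
      rw [Nat.unpair_pair]
      exact h
    have hxc : x ∉ closure (U n m) := by
      intro h
      apply hxf
      rw [(hU n m).frontier_eq]
      exact ⟨h, hxU⟩
    exact mem_nhdsWithin_of_mem_nhds (mem_of_superset (isClosed_closure.isOpen_compl.mem_nhds hxc)
      (compl_subset_compl.2 subset_closure))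

/-- A union of two zero-dimensional sets has covering dimension at most one. -/
theorem cover_of_decomposition {X : Type*} [MetricSpace X] [SecondCountableTopology X]
    {Z0 Z1 : Set X} (h0 : ZD Z0) (h1 : ZD Z1) (h : Z0 ∪ Z1 = univ) {κ : Type*} (O : κ → Set X)
    (hO : ∀ i, IsOpen (O i)) (hcov : ∀ x, ∃ i, x ∈ O i) :
    ∃ V : κ → Set X, (∀ i, IsOpen (V i)) ∧ (∀ i, V i ⊆ O i) ∧ (∀ x, ∃ i, x ∈ V i) ∧
      ∀ x i j k, x ∈ V i → x ∈ V j → x ∈ V k → i = j ∨ j = k ∨ i = k := by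
  obtain ⟨W, hWo, hWd, hWO, hW⟩ := h0.refine O hO (fun z _ => hcov z)
  obtain ⟨W', hWo', hWd', hWO', hW'⟩ := h1.refine O hO (fun z _ => hcov z)
  refine ⟨fun i => W i ∪ W' i, fun i => (hWo i).union (hWo' i), fun i =>
    union_subset (hWO i) (hWO' i), ?_, ?_⟩
  · intro x
    have hx : x ∈ Z0 ∪ Z1 := by rw [h]; trivial
    rcases hx with hx | hx
    · obtain ⟨i, hi⟩ := hW x hx
      exact ⟨i, Or.inl hi⟩
    · obtain ⟨i, hi⟩ := hW' x hx
      exact ⟨i, Or.inr hi⟩
  · have hu : ∀ x i j, x ∈ W i → x ∈ W j → i = j := by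
      intro x i j hi hj
      by_contra hne
      exact Set.disjoint_left.1 (hWd i j hne) hi hj
    have hu' : ∀ x i j, x ∈ W' i → x ∈ W' j → i = j := by
      intro x i j hi hj
      by_contra hne
      exact Set.disjoint_left.1 (hWd' i j hne) hi hj
    rintro x i j k (hi | hi) (hj | hj) (hk | hk)
    · exact Or.inl (hu x i j hi hj)
    · exact Or.inl (hu x i j hi hj)
    · exact Or.inr (Or.inr (hu x i k hi hk))
    · exact Or.inr (Or.inl (hu' x j k hj hk))
    · exact Or.inr (Or.inl (hu x j k hj hk))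
    · exact Or.inr (Or.inr (hu' x i k hi hk))
    · exact Or.inl (hu' x i j hi hj)
    · exact Or.inl (hu' x i j hi hj)

end Pool.Agent.helper66.AZD2
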